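import Pool.Agent.H369.RE.Stm

/-!
# RE3: a curve with a Weierstrass equation is smooth over every extension field
-/

set_option autoImplicit false

namespace Pool.Agent.H331.RE

open Polynomial

section abs

variable {A E : Type} [CommRing A] [IsDomain A] [UniqueFactorizationMonoid A] [CommRing E]
  [IsDomain E] [Algebra A E]

theorem dvd_of_sq {d b f : A} (hf : Squarefree f) (hd : d ≠ 0) (h : d ^ 2 ∣ b ^ 2 * f) : d ∣ b := by
  obtain ⟨d', b', c', hrel, rfl, rfl⟩ := UniqueFactorizationMonoid.exists_reduced_factors d hd b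
  have hc : c' ≠ 0 := left_ne_zero_of_mul hd
  have h1 : d' ^ 2 ∣ b' ^ 2 * f := by
    have h2 : c' ^ 2 * d' ^ 2 ∣ c' ^ 2 * (b' ^ 2 * f) := by
      have e1 : c' ^ 2 * d' ^ 2 = (c' * d') ^ 2 := by ring
      have e2 : c' ^ 2 * (b' ^ 2 * f) = (c' * b') ^ 2 * f := by ring
      rw [e1, e2]
      exact h
    exact (mul_dvd_mul_iff_left (pow_ne_zero 2 hc)).1 h2
  have h2 : d' ^ 2 ∣ f := (hrel.pow).dvd_of_dvd_mul_left h1
  have h3 : IsUnit d' := hf d' (by rw [← sq]; exact h2)
  obtain ⟨u, rfl⟩ := h3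
  exact (Units.mul_right_dvd.2 (dvd_mul_right c' b'))

theorem normal_of (h2 : IsUnit (2 : A)) (y : E) (f : A) (hf : Squarefree f)
    (hy : y ^ 2 = algebraMap A E f)
    (hspan : ∀ h : E, ∃ p q : A, h = algebraMap A E p + algebraMap A E q * y)
    (hind : ∀ p q : A, algebraMap A E p + algebraMap A E q * y = 0 → p = 0 ∧ q = 0) :
    IsIntegrallyClosed E := by
  have hyi : IsIntegral A y := by
    refine ⟨X ^ 2 - C f, monic_X_pow_sub_C f two_ne_zero, ?_⟩
    rw [eval₂_sub, eval₂_X_pow, eval₂_C, hy, sub_self]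
  have hint : Algebra.IsIntegral A E := ⟨fun h => by
    obtain ⟨p, q, rfl⟩ := hspan h
    exact isIntegral_algebraMap.add (isIntegral_algebraMap.mul hyi)⟩
  have hinjA : Function.Injective (algebraMap A E) := by
    rw [injective_iff_map_eq_zero]
    intro a ha
    exact (hind a 0 (by rw [ha, map_zero, zero_mul, add_zero])).1
  have hinjE : Function.Injective (algebraMap E (FractionRing E)) := IsFractionRing.injective _ _
  have htow : ∀ a : A, algebraMap A (FractionRing E) a = algebraMap E (FractionRing E) (algebraMap A E a) :=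
    fun a => IsScalarTower.algebraMap_apply A E (FractionRing E) a
  have hinj : Function.Injective (algebraMap A (FractionRing E)) := by
    intro a b hab
    rw [htow, htow] at hab
    exact hinjA (hinjE hab)
  have htf : Module.IsTorsionFree A (FractionRing E) :=
    Module.isTorsionFree_iff_algebraMap_injective.2 hinj
  rw [isIntegrallyClosed_iff (FractionRing E)]
  intro z hz
  have hzA : IsIntegral A z := isIntegral_trans z hz
  -- `d z = a₀ + b₀ y`
  obtain ⟨d, a₀, b₀, hd, hdz⟩ : ∃ d a₀ b₀ : A, d ≠ 0 ∧ algebraMap A (FractionRing E) d * z =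
      algebraMap E (FractionRing E) (algebraMap A E a₀ + algebraMap A E b₀ * y) := by
    obtain ⟨u, v, hv, rfl⟩ := IsFractionRing.div_surjective (A := E) z
    have hv0 : v ≠ 0 := nonZeroDivisors.ne_zero hv
    obtain ⟨p, q, hpq⟩ := hspan v
    obtain ⟨a, b, hab⟩ := hspan u
    have hnorm : algebraMap A E (p ^ 2 - q ^ 2 * f) = v * (algebraMap A E p - algebraMap A E q * y) := by
      rw [hpq, map_sub, map_mul, map_pow, map_pow, ← hy]
      ring
    refine ⟨p ^ 2 - q ^ 2 * f, a * p - b * q * f, b * p - a * q, ?_, ?_⟩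
    · intro h0
      rw [h0, map_zero] at hnorm
      have h1 := (mul_eq_zero.1 hnorm.symm).resolve_left hv0
      have h3 := hind p (-q) (by rw [map_neg, neg_mul, ← sub_eq_add_neg]; exact h1)
      apply hv0
      rw [hpq, h3.1, neg_eq_zero.1 h3.2, map_zero, zero_mul, add_zero]
    · have hv1 : algebraMap E (FractionRing E) v ≠ 0 := fun h => hv0 (hinjE (by rw [h, map_zero]))
      rw [htow, hnorm, map_mul, mul_comm, div_mul_eq_mul_div, mul_div_assoc]
      have e1 : algebraMap E (FractionRing E) v * algebraMap E (FractionRing E)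
          (algebraMap A E p - algebraMap A E q * y) / algebraMap E (FractionRing E) v =
          algebraMap E (FractionRing E) (algebraMap A E p - algebraMap A E q * y) := by
        rw [mul_comm, mul_div_assoc, div_self hv1, mul_one]
      rw [e1, ← map_mul, hab]
      congr 1
      simp only [map_sub, map_mul, ← hy]
      ring
  obtain ⟨P, hP⟩ : ∃ P : A[X], P = C (d ^ 2) * X ^ 2 + C (-(2 * d * a₀)) * X +
    C (a₀ ^ 2 - b₀ ^ 2 * f) := ⟨_, rfl⟩
  have hd2 : d ^ 2 ≠ 0 := pow_ne_zero 2 hd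
  have hPd : P.natDegree = 2 := by rw [hP]; exact natDegree_quadratic hd2
  have hP0 : P ≠ 0 := by
    intro h
    rw [h, natDegree_zero] at hPd
    exact absurd hPd (by norm_num)
  have hPz : aeval z P = 0 := by
    have e1 : aeval z P = (algebraMap A (FractionRing E) d * z -
        algebraMap A (FractionRing E) a₀) ^ 2 - algebraMap A (FractionRing E) (b₀ ^ 2 * f) := by
      rw [hP]
      simp only [map_add, map_mul, map_sub, map_neg, map_pow, aeval_C, aeval_X, map_ofNat]
      ring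
    rw [e1, hdz, htow a₀, htow (b₀ ^ 2 * f), ← map_sub, ← map_pow, ← map_sub]
    have e2 : (algebraMap A E a₀ + algebraMap A E b₀ * y - algebraMap A E a₀) ^ 2 -
        algebraMap A E (b₀ ^ 2 * f) = 0 := by
      rw [map_mul, map_pow, ← hy]
      ring
    rw [e2, map_zero]
  obtain ⟨Q, hQ⟩ := minpoly.isIntegrallyClosed_dvd hzA hPz
  have hm := minpoly.monic hzA
  have hmz := minpoly.aeval A z
  generalize minpoly A z = m at hQ hm hmz
  have hQ0 : Q ≠ 0 := by
    intro h
    rw [h, mul_zero] at hQ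
    exact hP0 hQ
  have hdeg : m.natDegree + Q.natDegree = 2 := by
    rw [← hPd, hQ, hm.natDegree_mul' hQ0]
  rcases Nat.lt_or_ge m.natDegree 2 with hlt | hge
  · -- degree one
    have h1 : m = C (m.coeff 1) * X + C (m.coeff 0) :=
      eq_X_add_C_of_natDegree_le_one (by omega)
    have h3 : m.natDegree = 1 := by
      by_contra hne
      have h4 : m.natDegree = 0 := by omega
      have h5 : m = 1 := hm.natDegree_eq_zero.1 h4
      rw [h5, map_one] at hmz
      exact one_ne_zero hmz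
    have h4 : m.coeff 1 = 1 := by
      rw [← h3]
      exact hm.coeff_natDegree
    rw [h4] at h1
    rw [h1, map_add, map_mul, aeval_C, aeval_C, aeval_X, map_one, one_mul] at hmz
    refine ⟨algebraMap A E (-(m.coeff 0)), ?_⟩
    rw [← htow, map_neg]
    exact (eq_neg_of_add_eq_zero_left hmz).symm
  · have h1 : Q.natDegree = 0 := by omega
    have h3 : m.natDegree = 2 := by omega
    obtain ⟨c, rfl⟩ : ∃ c, Q = C c := ⟨_, eq_C_of_natDegree_eq_zero h1⟩
    have h5 : m.coeff 2 = 1 := by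
      rw [← h3]
      exact hm.coeff_natDegree
    have hc2 := congrArg (fun t => t.coeff 2) hQ
    have hc1 := congrArg (fun t => t.coeff 1) hQ
    have hc0 := congrArg (fun t => t.coeff 0) hQ
    simp only [coeff_mul_C, h5, one_mul] at hc2 hc1 hc0
    have hq : ∀ α β γ : A, (C α * X ^ 2 + C β * X + C γ : A[X]).coeff 2 = α ∧
        (C α * X ^ 2 + C β * X + C γ : A[X]).coeff 1 = β ∧
        (C α * X ^ 2 + C β * X + C γ : A[X]).coeff 0 = γ := by
      intro α β γ
      refine ⟨?_, ?_, ?_⟩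
      · rw [coeff_add, coeff_add, coeff_C_mul_X_pow, coeff_C_mul_X, coeff_C]
        simp
      · rw [coeff_add, coeff_add, coeff_C_mul_X_pow, coeff_C_mul_X, coeff_C]
        simp
      · rw [coeff_add, coeff_add, coeff_C_mul_X_pow, coeff_C_mul_X, coeff_C]
        simp
    obtain ⟨e2, e1, e0⟩ := hq (d ^ 2) (-(2 * d * a₀)) (a₀ ^ 2 - b₀ ^ 2 * f)
    rw [← hP] at e2 e1 e0
    rw [e2] at hc2
    rw [e1, ← hc2] at hc1
    rw [e0, ← hc2] at hc0
    obtain ⟨h, hh⟩ := h2
    have ha : a₀ = d * (-(m.coeff 1 * ((h⁻¹ : Aˣ) : A))) := by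
      have e3 : 2 * a₀ = -(m.coeff 1 * d) := by
        apply mul_left_cancel₀ hd
        linear_combination (-1 : A) * hc1
      have e4 : ((h⁻¹ : Aˣ) : A) * 2 = 1 := by
        rw [← hh]
        exact Units.inv_mul h
      linear_combination (((h⁻¹ : Aˣ) : A)) * e3 - a₀ * e4
    obtain ⟨a₁, ha₁⟩ : ∃ a₁, a₁ = -(m.coeff 1 * ((h⁻¹ : Aˣ) : A)) := ⟨_, rfl⟩
    rw [← ha₁] at ha
    have hb : d ∣ b₀ := by
      apply dvd_of_sq hf hd
      refine ⟨a₁ ^ 2 - m.coeff 0, ?_⟩
      rw [ha] at hc0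
      linear_combination (-1 : A) * hc0
    obtain ⟨b₁, hb₁⟩ := hb
    refine ⟨algebraMap A E a₁ + algebraMap A E b₁ * y, ?_⟩
    have hdS : algebraMap A (FractionRing E) d ≠ 0 := fun h => hd (hinj (by rw [h, map_zero]))
    apply mul_left_cancel₀ hdS
    rw [hdz, htow, ← map_mul, ha, hb₁]
    congr 1
    rw [map_mul, map_mul]
    ring

end abs

section conc

open Pool.Agent.TH549.CK Pool.Agent.H369.RE

variable {k : Type} [Field k] {E : Subalgebra k (LaurentSeries k)}

/-- a pole of order exactly `n` -/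
def Ex (n : ℕ) (h : E) : Prop := h ∈ Lp E n ∧ (h : LaurentSeries k).coeff (-(n : ℤ)) ≠ 0

theorem mul_lead {h h' : E} {n m : ℕ} (hh : h ∈ Lp E n) (hh' : h' ∈ Lp E m) :
    h * h' ∈ Lp E (n + m) ∧ ((h * h' : E) : LaurentSeries k).coeff (-((n + m : ℕ) : ℤ)) =
      (h : LaurentSeries k).coeff (-(n : ℤ)) * (h' : LaurentSeries k).coeff (-(m : ℤ)) := by
  have h1 : ∀ l : ℤ, ((h * h' : E) : LaurentSeries k).coeff l =
      ∑ i ∈ Finset.Icc (-(n : ℤ)) (l + m), (h : LaurentSeries k).coeff i *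
        (h' : LaurentSeries k).coeff (l - i) := fun l => by
    rw [Subalgebra.coe_mul]
    exact P5.coeff_mul_bd hh hh' l
  constructor
  · intro l hl
    rw [h1, Finset.Icc_eq_empty, Finset.sum_empty]
    push_cast at hl
    omega
  · rw [h1]
    have e : -((n + m : ℕ) : ℤ) + m = -(n : ℤ) := by
      push_cast
      ring
    rw [e, Finset.Icc_self, Finset.sum_singleton]
    congr 2
    push_cast
    ring

theorem pow_lead {h : E} {n : ℕ} (hh : h ∈ Lp E n) (i : ℕ) :
    h ^ i ∈ Lp E (n * i) ∧ ((h ^ i : E) : LaurentSeries k).coeff (-((n * i : ℕ) : ℤ)) =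
      (h : LaurentSeries k).coeff (-(n : ℤ)) ^ i := by
  induction i with
  | zero =>
    rw [pow_zero, pow_zero, Nat.mul_zero, Nat.cast_zero, neg_zero]
    refine ⟨fun l hl => ?_, ?_⟩
    · rw [Subalgebra.coe_one, HahnSeries.coeff_one, if_neg (by omega)]
    · rw [Subalgebra.coe_one, HahnSeries.coeff_one, if_pos rfl]
  | succ i ih =>
    obtain ⟨h1, h2⟩ := mul_lead ih.1 hh
    rw [pow_succ, pow_succ, Nat.mul_succ]
    exact ⟨h1, by rw [h2, ih.2]⟩

theorem Ex.mul {h h' : E} {n m : ℕ} (hh : Ex n h) (hh' : Ex m h') : Ex (n + m) (h * h') := by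
  obtain ⟨h1, h2⟩ := mul_lead hh.1 hh'.1
  refine ⟨h1, ?_⟩
  rw [h2]
  exact mul_ne_zero hh.2 hh'.2

theorem Ex.pow {h : E} {n : ℕ} (hh : Ex n h) (i : ℕ) : Ex (n * i) (h ^ i) := by
  obtain ⟨h1, h2⟩ := pow_lead hh.1 i
  refine ⟨h1, ?_⟩
  rw [h2]
  exact pow_ne_zero _ hh.2

theorem Ex.ne_zero {h : E} {n : ℕ} (hh : Ex n h) : h ≠ 0 := by
  intro h0
  apply hh.2
  rw [h0]
  rfl

theorem Ex.unique {h h' : E} {n m : ℕ} (hh : Ex n h) (hh' : Ex m h') (h0 : h + h' = 0) : n = m := by
  have h1 : ∀ l, (h : LaurentSeries k).coeff l + (h' : LaurentSeries k).coeff l = 0 := by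
    intro l
    have h2 := congrArg (fun t : E => (t : LaurentSeries k).coeff l) h0
    exact h2
  rcases lt_trichotomy n m with hlt | he | hgt
  · exfalso
    apply hh'.2
    have h2 := h1 (-(m : ℤ))
    rw [hh.1 (-(m : ℤ)) (by omega), zero_add] at h2
    exact h2
  · exact he
  · exfalso
    apply hh.2
    have h2 := h1 (-(n : ℤ))
    rw [hh'.1 (-(n : ℤ)) (by omega), add_zero] at h2
    exact h2

theorem Ex.aeval {x : E} (hx : Ex 2 x) {p : k[X]} (hp : p ≠ 0) :
    Ex (2 * p.natDegree) (Polynomial.aeval x p) := by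
  have h1 : ∀ l : ℤ, ((Polynomial.aeval x p : E) : LaurentSeries k).coeff l =
      ∑ i ∈ Finset.range (p.natDegree + 1), p.coeff i * ((x ^ i : E) : LaurentSeries k).coeff l := by
    intro l
    rw [aeval_eq_sum_range, P8.sum_coe]
    exact Finset.sum_congr rfl fun i _ => P8.smul_coe E _ _ _
  constructor
  · intro l hl
    rw [h1]
    refine Finset.sum_eq_zero fun i hi => ?_
    have := Finset.mem_range.1 hi
    rw [(hx.pow i).1 l (by push_cast at hl ⊢; omega), mul_zero]
  · rw [h1, Finset.sum_eq_single p.natDegree]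
    · exact mul_ne_zero (leadingCoeff_ne_zero.2 hp) (hx.pow _).2
    · intro i hi hne
      have := Finset.mem_range.1 hi
      rw [(hx.pow i).1 _ (by push_cast; omega), mul_zero]
    · intro h
      exact absurd (Finset.mem_range.2 (Nat.lt_succ_self _)) h

theorem indep {x y : E} (hx : Ex 2 x) (hy : Ex 3 y) (p q : k[X])
    (h : aeval x p + aeval x q * y = 0) : p = 0 ∧ q = 0 := by
  by_cases hp : p = 0
  · refine ⟨hp, ?_⟩
    by_contra hq
    rw [hp, map_zero, zero_add] at h
    exact ((Ex.aeval hx hq).mul hy).ne_zero h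
  · exfalso
    by_cases hq : q = 0
    · rw [hq, map_zero, zero_mul, add_zero] at h
      exact (Ex.aeval hx hp).ne_zero h
    · have := (Ex.aeval hx hp).unique ((Ex.aeval hx hq).mul hy) h
      omega

theorem spanE {x y : E} (hx : Ex 2 x) (hy : Ex 3 y) (h1 : Module.finrank k (Lp E 1) = 1) (n : ℕ) :
    ∀ h ∈ Lp E n, ∃ p q : k[X], h = aeval x p + aeval x q * y := by
  have hone : (1 : E) ∈ Lp E 1 := by
    intro l hl
    rw [Subalgebra.coe_one, HahnSeries.coeff_one, if_neg (by push_cast at hl; omega)]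
  have base : ∀ h ∈ Lp E 1, ∃ p q : k[X], h = aeval x p + aeval x q * y := by
    intro h hh
    have hne : (⟨1, hone⟩ : Lp E 1) ≠ 0 := by
      intro h0
      have h2 := congrArg (fun t : Lp E 1 => (t : E)) h0
      exact one_ne_zero h2
    obtain ⟨c, hc⟩ := (@finrank_eq_one_iff_of_nonzero' k (Lp E 1) _ (Submodule.addCommGroup _)
      (Submodule.module _) ⟨1, hone⟩ hne).1 h1 ⟨h, hh⟩
    refine ⟨C c, 0, ?_⟩
    rw [map_zero, zero_mul, add_zero, aeval_C, Algebra.algebraMap_eq_smul_one]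
    exact (congrArg (fun t : Lp E 1 => (t : E)) hc).symm
  induction n with
  | zero =>
    intro h hh
    exact base h fun l hl => hh l (by push_cast at hl ⊢; omega)
  | succ n ih =>
    rcases Nat.eq_zero_or_pos n with hn | hn
    · rw [hn]
      exact base
    intro h hh
    -- an element with a pole of order exactly `n + 1`
    obtain ⟨g, p, q, hg, hgpq⟩ : ∃ (g : E) (p q : k[X]), Ex (n + 1) g ∧
        g = aeval x p + aeval x q * y := by
      rcases Nat.even_or_odd' (n + 1) with ⟨i, hi | hi⟩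
      · refine ⟨x ^ i, X ^ i, 0, ?_, ?_⟩
        · rw [hi]
          exact hx.pow i
        · rw [map_pow, aeval_X, map_zero, zero_mul, add_zero]
      · obtain ⟨j, rfl⟩ : ∃ j, i = j + 1 := ⟨i - 1, by omega⟩
        refine ⟨x ^ j * y, 0, X ^ j, ?_, ?_⟩
        · have e : n + 1 = 2 * j + 3 := by omega
          rw [e]
          exact (hx.pow j).mul hy
        · rw [map_pow, aeval_X, map_zero, zero_add]
    obtain ⟨c, hc⟩ : ∃ c : k, c * (g : LaurentSeries k).coeff (-((n + 1 : ℕ) : ℤ)) =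
        (h : LaurentSeries k).coeff (-((n + 1 : ℕ) : ℤ)) := ⟨_, div_mul_cancel₀ _ hg.2⟩
    obtain ⟨p', q', h'⟩ := ih (h - c • g) (by
      intro l hl
      rw [Subalgebra.coe_sub, HahnSeries.coeff_sub, P8.smul_coe]
      by_cases e : l = -((n + 1 : ℕ) : ℤ)
      · rw [e, hc, sub_self]
      · rw [hh l (by push_cast at hl e ⊢; omega), hg.1 l (by push_cast at hl e ⊢; omega), mul_zero,
          sub_zero])
    refine ⟨p' + c • p, q' + c • q, ?_⟩
    rw [map_add, map_add, map_smul, map_smul, add_mul, smul_mul_assoc]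
    calc h = (h - c • g) + c • g := by abel
      _ = aeval x p' + aeval x q' * y + c • (aeval x p + aeval x q * y) := by rw [h', hgpq]
      _ = _ := by
        rw [smul_add]
        abel

end conc

section final

open Pool.Agent.TH549.CK Pool.Agent.H369.RE

variable {k : Type} [Field k]

theorem sqf {c e₁ e₂ e₃ : k} (hc : c ≠ 0) (h12 : e₁ ≠ e₂) (h13 : e₁ ≠ e₃) (h23 : e₂ ≠ e₃) :
    Squarefree (C c * (X - C e₁) * (X - C e₂) * (X - C e₃) : k[X]) := by
  have hcop : ∀ {a b : k}, a ≠ b → IsCoprime (X - C a : k[X]) (X - C b) := fun h =>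
    isCoprime_X_sub_C_of_isUnit_sub (sub_ne_zero.2 h).isUnit
  have hu : IsUnit (C c : k[X]) := isUnit_C.2 hc.isUnit
  have hs : ∀ a : k, Squarefree (X - C a : k[X]) := fun a => (irreducible_X_sub_C a).squarefree
  have h1 : Squarefree (C c * (X - C e₁) : k[X]) :=
    squarefree_mul_iff.2 ⟨hu.isRelPrime_left, hu.squarefree, hs e₁⟩
  have hcu : ∀ p : k[X], IsCoprime (C c) p := fun p => by
    obtain ⟨u, hu'⟩ := hu
    exact ⟨((u⁻¹ : k[X]ˣ) : k[X]), 0, by rw [← hu', Units.inv_mul, zero_mul, add_zero]⟩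
  have h2 : Squarefree (C c * (X - C e₁) * (X - C e₂) : k[X]) :=
    squarefree_mul_iff.2 ⟨(IsCoprime.mul_left (hcu _) (hcop h12)).isRelPrime, h1, hs e₂⟩
  exact squarefree_mul_iff.2 ⟨(IsCoprime.mul_left (IsCoprime.mul_left (hcu _) (hcop h13))
    (hcop h23)).isRelPrime, h2, hs e₃⟩

theorem normalE [CharZero k] (E : Subalgebra k (LaurentSeries k))
    (h1 : Module.finrank k (Lp E 1) = 1) {x y : E} (hx : Ex 2 x) (hy : Ex 3 y) {c e₁ e₂ e₃ : k}
    (hc : c ≠ 0) (h12 : e₁ ≠ e₂) (h13 : e₁ ≠ e₃) (h23 : e₂ ≠ e₃)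
    (h : y ^ 2 = algebraMap k E c * (x - algebraMap k E e₁) * (x - algebraMap k E e₂) *
      (x - algebraMap k E e₃)) : IsIntegrallyClosed E := by
  let _ : Algebra k[X] E := ((aeval x : k[X] →ₐ[k] E) : k[X] →+* E).toAlgebra
  have halg : ∀ p : k[X], algebraMap k[X] E p = aeval x p := fun p => rfl
  refine normal_of (A := k[X]) ?_ y _ (sqf hc h12 h13 h23) ?_ ?_ ?_
  · have h2 : (2 : k[X]) = C 2 := (map_ofNat C 2).symm
    rw [h2]
    exact isUnit_C.2 (two_ne_zero (α := k)).isUnit
  · rw [halg, map_mul, map_mul, map_mul, map_sub, map_sub, map_sub, aeval_C, aeval_C, aeval_C,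
      aeval_C, aeval_X, h]
  · intro z
    have hz : z ∈ Lp E (-(z : LaurentSeries k).order).toNat := by
      intro l hl
      apply HahnSeries.coeff_eq_zero_of_lt_order
      have := Int.self_le_toNat (-(z : LaurentSeries k).order)
      omega
    obtain ⟨p, q, hpq⟩ := spanE hx hy h1 _ z hz
    exact ⟨p, q, by rw [halg, halg]; exact hpq⟩
  · intro p q hpq
    rw [halg, halg] at hpq
    exact indep hx hy p q hpq

theorem up_alg (R : Subalgebra k (LaurentSeries k)) (Ω : Type) [Field Ω] [Algebra k Ω] (c : k) :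
    up R Ω (algebraMap k R c) = algebraMap Ω (ext R Ω) (algebraMap k Ω c) := by
  apply Subtype.ext
  ext l
  rw [coeff_up, P6.algebraMap_RK_coeff, P6.algebraMap_RK_coeff]
  split_ifs
  · rfl
  · rw [map_zero]

theorem up_Ex (R : Subalgebra k (LaurentSeries k)) (Ω : Type) [Field Ω] [Algebra k Ω] {n : ℕ} {h : R}
    (h1 : h ∈ Lp R n) (h2 : (h : LaurentSeries k).coeff (-(n : ℤ)) ≠ 0) : Ex n (up R Ω h) := by
  refine ⟨fun l hl => ?_, ?_⟩
  · rw [coeff_up, h1 l hl, map_zero]
  · rw [coeff_up]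
    exact fun h0 => h2 ((algebraMap k Ω).injective (h0.trans (map_zero _).symm))

/-- **RE3** -/
theorem w : S_W := by
  intro k _ _ R hfin X Y c e₁ e₂ e₃ hX hX0 hY hY0 hc h12 h13 h23 hrel Ω _ _
  have hinj := (algebraMap k Ω).injective
  have hchar : CharZero Ω := charZero_of_injective_algebraMap hinj
  have hfinE : ∀ n : ℕ, 0 < n → Module.finrank Ω (Lp (ext R Ω) n) = n := fun n hn => by
    have hpos : 0 < Module.finrank k (Lp R n) := by
      rw [hfin n hn]
      exact hn
    have : Module.Free k (Lp R n) :=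
      @Module.Free.of_divisionRing k (Lp R n) _ (Submodule.addCommGroup _) (Submodule.module _)
    have hfd : FiniteDimensional k (Lp R n) := Module.finite_of_finrank_pos hpos
    rw [ext_finrank, hfin n hn]
  refine ⟨normalE _ (hfinE 1 one_pos) (up_Ex R Ω hX hX0) (up_Ex R Ω hY hY0)
    (c := algebraMap k Ω c) (e₁ := algebraMap k Ω e₁) (e₂ := algebraMap k Ω e₂)
    (e₃ := algebraMap k Ω e₃) (fun h => hc (hinj (h.trans (map_zero _).symm)))
    (fun h => h12 (hinj h)) (fun h => h13 (hinj h)) (fun h => h23 (hinj h)) ?_, fun n hn => ?_⟩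
  · rw [← up_alg, ← up_alg, ← up_alg, ← up_alg, ← map_sub, ← map_sub, ← map_sub, ← map_mul,
      ← map_mul, ← map_mul, ← map_pow, hrel]
  · rw [hfinE n (by omega)]
    omega

end final

end Pool.Agent.H331.RE
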